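import Mathlib
import Pool.Agent.Q73.AD.Fin
import Pool.Agent.Q73.AD.TR1
import Pool.Agent.Q63.ISE.Man

/-!
# The average doubling index of eigenfunctions is bounded, all closed surfaces (MP_c7f82c_an, Q1)

For every closed connected Riemannian surface and all `C, C₁, C₂` there is `A` such that for every
eigenfunction and every admissible covering the average of the doubling indices of the discs is at
most `A`.

The surface is a smooth Riemannian manifold of dimension two in the sense of Mathlib, with its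
geodesic distance; no analyticity is assumed. All notions entering the statement are defined in this
file, over Mathlib alone. The analytic core (the bound for surfaces given by isothermal charts) is
`Pool.Agent.Q73.AD.fin5`, the isothermal charts are provided by `Pool.Agent.Q63.ISE.atlas`.
-/

set_option autoImplicit false
open MeasureTheory Filter Topology Complex Bundle
open scoped ContDiff Manifold

namespace Pool.Agent.Results.MP_c7f82c_an.BoundedAverage

noncomputable section

universe u v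

variable {E : Type v} [NormedAddCommGroup E] [NormedSpace ℝ E] (b : Module.Basis (Fin 2) ℝ E)
  {M : Type u} [TopologicalSpace M] [ChartedSpace E M]

/-- the coordinate vector `∂_i` of the chart at `x₀`, at the point with coordinates `z` -/
def coordVec (x₀ : M) (z : E) (i : Fin 2) :
    TangentSpace 𝓘(ℝ, E) ((extChartAt 𝓘(ℝ, E) x₀).symm z) :=
  mfderiv 𝓘(ℝ, E) 𝓘(ℝ, E) (extChartAt 𝓘(ℝ, E) x₀).symm z (b i)

/-- the matrix `g_ij = ⟨∂_i, ∂_j⟩` of the metric in the chart at `x₀` -/
def metricMatrix [RiemannianBundle (fun x : M => TangentSpace 𝓘(ℝ, E) x)] (x₀ : M) (z : E) :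
    Matrix (Fin 2) (Fin 2) ℝ :=
  Matrix.of fun i j => inner ℝ (coordVec b x₀ z i) (coordVec b x₀ z j)

/-- the Laplace-Beltrami operator in coordinates: `(det g)^(-1/2) ∑_i ∂_i ((det g)^(1/2) ∑_j g^ij ∂_j h)` -/
def laplaceBeltrami (g : E → Matrix (Fin 2) (Fin 2) ℝ) (h : E → ℝ) (z : E) : ℝ :=
  (√((g z).det))⁻¹ * ∑ i, fderiv ℝ (fun y => √((g y).det) *
    ∑ j, (g y)⁻¹ i j * fderiv ℝ h y (b j)) z (b i)

/-- `f` is a real smooth eigenfunction on the Riemannian manifold `M`: `Δ_g f + lam f = 0`, `f ≢ 0`;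
the equation is written in the coordinates of every chart -/
structure IsEigenfunctionOn [RiemannianBundle (fun x : M => TangentSpace 𝓘(ℝ, E) x)] (lam : ℝ)
    (f : M → ℝ) : Prop where
  smooth : ContMDiff 𝓘(ℝ, E) 𝓘(ℝ, ℝ) ∞ f
  eq : ∀ x₀ : M, ∀ z ∈ (extChartAt 𝓘(ℝ, E) x₀).target,
    laplaceBeltrami b (metricMatrix b x₀) (fun y => f ((extChartAt 𝓘(ℝ, E) x₀).symm y)) z
      + lam * f ((extChartAt 𝓘(ℝ, E) x₀).symm z) = 0
  ne : ∃ x, f x ≠ 0

/-- the doubling index of `f` on the geodesic disc with centre `x` and radius `r` -/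
def doubling {M : Type u} [MetricSpace M] (f : M → ℝ) (x : M) (r : ℝ) : ℝ :=
  Real.logb 2 (sSup ((fun y => |f y|) '' Metric.ball x (2 * r)) /
    sSup ((fun y => |f y|) '' Metric.ball x r))

/-- the geodesic discs of radius `C / √lam` with centres `x i`, `i ∈ κ`, are an admissible covering
for `f` with constants `C`, `C₁`, `C₂`: they cover `M`, their number is between `C₂⁻¹ lam` and
`C₂ lam`, every point is in at most `C₁` discs, and `f` vanishes at the centres -/
structure Admissible {M : Type u} [MetricSpace M] (f : M → ℝ) (lam C C₁ C₂ : ℝ) {κ : Type}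
    [Fintype κ] (x : κ → M) : Prop where
  cover : ∀ y : M, ∃ i, y ∈ Metric.ball (x i) (C / Real.sqrt lam)
  card_ge : C₂⁻¹ * lam ≤ Fintype.card κ
  card_le : Fintype.card κ ≤ C₂ * lam
  mult : ∀ y : M, ({i | y ∈ Metric.ball (x i) (C / Real.sqrt lam)}.ncard : ℝ) ≤ C₁
  zero : ∀ i, f (x i) = 0

/-- **The average doubling index is bounded**, on every closed connected Riemannian surface (smooth
compact Riemannian manifold of dimension two, in the sense of Mathlib, with its geodesic distance):
for all `C, C₁, C₂ > 0` there is `A` such that for every eigenfunction and every admissible covering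
the average of the doubling indices of the discs is at most `A`. -/
theorem result : ∀ (E : Type v) [NormedAddCommGroup E] [NormedSpace ℝ E] (b : Module.Basis (Fin 2) ℝ E)
    (M : Type u) [MetricSpace M] [ChartedSpace E M] [IsManifold 𝓘(ℝ, E) ∞ M]
    [RiemannianBundle (fun x : M => TangentSpace 𝓘(ℝ, E) x)]
    [IsContMDiffRiemannianBundle 𝓘(ℝ, E) ∞ E (fun x : M => TangentSpace 𝓘(ℝ, E) x)]
    [IsRiemannianManifold 𝓘(ℝ, E) M] [CompactSpace M] [ConnectedSpace M],
    ∀ C C₁ C₂ : ℝ, 0 < C → 0 < C₁ → 0 < C₂ → ∃ A : ℝ, 0 < A ∧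
      ∀ (lam : ℝ) (f : M → ℝ), 0 < lam → IsEigenfunctionOn b lam f →
      ∀ (κ : Type) [Fintype κ] (x : κ → M), Admissible f lam C C₁ C₂ x →
        (∑ i, doubling f (x i) (C / Real.sqrt lam)) / Fintype.card κ ≤ A := by
  intro E _ _ b M _ _ _ _ _ _ _ _ C C₁ C₂ hC hC₁ hC₂
  obtain ⟨U, φ, ρ, hR, -, hE⟩ := Pool.Agent.Q63.ISE.atlas b M
  have hR' : Pool.Agent.Q73.AD.Riem U φ ρ := ⟨hR.dom, hR.inj, hR.cont, hR.opn,
    hR.cover, hR.pos, hR.dens, hR.trans, hR.geod⟩
  have hatl := Pool.Agent.Q73.AD.tr1 M M U φ ρ hR'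
  obtain ⟨A, hA, hA2⟩ := Pool.Agent.Q73.AD.fin5.{u, u} M M U φ ρ hatl
    (fun i z hz => (hR.pos i z hz).le) C C₁ C₂ hC hC₁ hC₂
  refine ⟨A, hA, fun lam f hlam hf κ _ x hx => ?_⟩
  have h := hE lam f ⟨hf.smooth, hf.eq⟩
  exact hA2 lam f κ x hlam (fun i => ⟨(h i).1, (h i).2⟩) hf.ne hx.mult hx.card_ge

end

end Pool.Agent.Results.MP_c7f82c_an.BoundedAverage
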